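import Pool.Agent.H44.MS.Basics

/-!
# The least coordinate in a representation by three squares: module VR
(the variance of a divisor sum over shifted squares)
-/

set_option autoImplicit false

namespace Pool.Agent.H71.MS

open Finset Real Pool.Agent.H44.MS

namespace VR

/-- counting in one residue class -/
theorem count (N₀ N M v : ℕ) (hM : 0 < M) (hN : N₀ ≤ N) :
    |∑ n ∈ Ico N₀ N, ic (n ≡ v [MOD M]) - ((N : ℝ) - N₀) / M| ≤ 1 := by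
  classical
  rw [sum_ic]
  have h := Nat.Ico_filter_modEq_card N₀ N hM v
  have hMq : (0 : ℚ) < M := by exact_mod_cast hM
  have hNq : (N₀ : ℚ) ≤ N := by exact_mod_cast hN
  have hle : ((N₀ : ℚ) - v) / M ≤ ((N : ℚ) - v) / M := by
    apply div_le_div_of_nonneg_right _ hMq.le
    linarith
  have hce : ⌈((N₀ : ℚ) - v) / M⌉ ≤ ⌈((N : ℚ) - v) / M⌉ := Int.ceil_le_ceil hle
  rw [max_eq_left (by linarith)] at h
  have h1 := Int.le_ceil (((N : ℚ) - v) / M)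
  have h2 := Int.ceil_lt_add_one (((N : ℚ) - v) / M)
  have h3 := Int.le_ceil (((N₀ : ℚ) - v) / M)
  have h4 := Int.ceil_lt_add_one (((N₀ : ℚ) - v) / M)
  have h5 : ((#{x ∈ Ico N₀ N | x ≡ v [MOD M]} : ℤ) : ℚ) =
      (⌈((N : ℚ) - v) / M⌉ : ℚ) - (⌈((N₀ : ℚ) - v) / M⌉ : ℚ) := by
    rw [h]
    push_cast
    ring
  have h6 : ((N : ℚ) - N₀) / M = ((N : ℚ) - v) / M - ((N₀ : ℚ) - v) / M := by
    rw [← sub_div]
    congr 1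
    ring
  have h7 : |((#{x ∈ Ico N₀ N | x ≡ v [MOD M]} : ℤ) : ℚ) - ((N : ℚ) - N₀) / M| ≤ 1 := by
    rw [h5, h6, abs_le]
    constructor <;> linarith
  have h8 : |((((#{x ∈ Ico N₀ N | x ≡ v [MOD M]} : ℤ) : ℚ) - ((N : ℚ) - N₀) / M : ℚ) : ℝ)| ≤ 1 := by
    rw [← Rat.cast_abs]
    exact_mod_cast h7
  push_cast at h8
  exact h8

variable {N₀ N Q a : ℕ}

/-- one congruence besides the one modulo `Q` -/
theorem two {k : ℕ} (u : ℕ) (hQ : 0 < Q) (hk : 0 < k) (hc : Nat.Coprime k Q) (hN : N₀ ≤ N) :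
    |∑ n ∈ Ico N₀ N, ic (n % Q = a % Q) * ic (n ≡ u [MOD k]) - ((N : ℝ) - N₀) / Q / k| ≤ 1 := by
  obtain ⟨v, hv1, hv2⟩ := Nat.chineseRemainder hc.symm a u
  have h := count N₀ N (Q * k) v (Nat.mul_pos hQ hk) hN
  rw [div_div]
  push_cast at h
  convert h using 4 with n hn
  rw [← ic_and]
  refine ic_congr ?_
  rw [← Nat.modEq_and_modEq_iff_modEq_mul hc.symm]
  exact and_congr ⟨fun h' => Nat.ModEq.trans h' hv1.symm, fun h' => Nat.ModEq.trans h' hv1⟩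
    ⟨fun h' => Nat.ModEq.trans h' hv2.symm, fun h' => Nat.ModEq.trans h' hv2⟩

theorem hh_mod (z₁ z₂ g : ℕ) : g ∣ hh z₁ z₂ ↔ z₁ ^ 2 ≡ z₂ ^ 2 [MOD g] := by
  unfold hh
  rw [← Int.natCast_dvd, Nat.modEq_iff_dvd]
  push_cast
  rw [← dvd_neg, neg_sub]

/-- two congruences besides the one modulo `Q` -/
theorem three {k₁ k₂ : ℕ} (z₁ z₂ : ℕ) (hQ : 0 < Q) (h1 : 0 < k₁) (h2 : 0 < k₂)
    (hc1 : Nat.Coprime k₁ Q) (hc2 : Nat.Coprime k₂ Q) (hN : N₀ ≤ N) :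
    |∑ n ∈ Ico N₀ N, ic (n % Q = a % Q) * (ic (n ≡ z₁ ^ 2 [MOD k₁]) * ic (n ≡ z₂ ^ 2 [MOD k₂])) -
      ((N : ℝ) - N₀) / Q * (ic (Nat.gcd k₁ k₂ ∣ hh z₁ z₂) / (Nat.lcm k₁ k₂ : ℝ))| ≤ 1 := by
  by_cases hg : Nat.gcd k₁ k₂ ∣ hh z₁ z₂
  · rw [ic_pos hg, mul_one_div]
    obtain ⟨w, hw1, hw2⟩ := Nat.chineseRemainder' ((hh_mod z₁ z₂ _).1 hg)
    have hl : 0 < Nat.lcm k₁ k₂ := Nat.lcm_pos h1 h2
    have hcl : Nat.Coprime (Nat.lcm k₁ k₂) Q :=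
      Nat.Coprime.coprime_dvd_left (Nat.lcm_dvd_mul k₁ k₂) (Nat.Coprime.mul_left hc1 hc2)
    have h := two (a := a) w hQ hl hcl hN
    convert h using 4 with n hn
    rw [← ic_and]
    refine congrArg _ (ic_congr ?_)
    have e1 : n ≡ z₁ ^ 2 [MOD k₁] ↔ n ≡ w [MOD k₁] :=
      ⟨fun h' => h'.trans hw1.symm, fun h' => h'.trans hw1⟩
    have e2 : n ≡ z₂ ^ 2 [MOD k₂] ↔ n ≡ w [MOD k₂] :=
      ⟨fun h' => h'.trans hw2.symm, fun h' => h'.trans hw2⟩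
    rw [e1, e2, Nat.modEq_iff_dvd, Nat.modEq_iff_dvd, Nat.modEq_iff_dvd, Int.natCast_dvd,
      Int.natCast_dvd, Int.natCast_dvd, Nat.lcm_dvd_iff]
  · rw [ic_neg hg, zero_div, mul_zero, sub_zero]
    have h0 : ∀ n ∈ Ico N₀ N, ic (n % Q = a % Q) *
        (ic (n ≡ z₁ ^ 2 [MOD k₁]) * ic (n ≡ z₂ ^ 2 [MOD k₂])) = 0 := by
      intro n _
      rw [← ic_and, ic_neg (p := n ≡ z₁ ^ 2 [MOD k₁] ∧ n ≡ z₂ ^ 2 [MOD k₂]), mul_zero]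
      rintro ⟨e1, e2⟩
      apply hg
      rw [hh_mod]
      exact (e1.of_dvd (Nat.gcd_dvd_left k₁ k₂)).symm.trans (e2.of_dvd (Nat.gcd_dvd_right k₁ k₂))
    rw [Finset.sum_eq_zero h0, abs_zero]
    exact zero_le_one

/-! ### the Ramanujan sums -/

/-- the Ramanujan sum -/
noncomputable def rj (h j : ℕ) : ℝ :=
  ∑ x ∈ j.divisorsAntidiagonal, (ArithmeticFunction.moebius x.1 : ℝ) * ((x.2 : ℝ) * ic (x.2 ∣ h))

theorem sum_rj (h : ℕ) {n : ℕ} (hn : 0 < n) :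
    ∑ j ∈ n.divisors, rj h j = (n : ℝ) * ic (n ∣ h) := by
  have h1 := (ArithmeticFunction.sum_eq_iff_sum_mul_moebius_eq (R := ℝ) (f := rj h)
    (g := fun n => (n : ℝ) * ic (n ∣ h))).2 (fun n _ => rfl)
  exact h1 n hn

theorem rj_one (h : ℕ) : rj h 1 = 1 := by
  have h1 := sum_rj h (n := 1) one_pos
  rw [Nat.divisors_one, Finset.sum_singleton, ic_pos (one_dvd h)] at h1
  rw [h1]
  norm_num

theorem rj_le {h : ℕ} (hh0 : h ≠ 0) (j : ℕ) : rj h j ≤ (sg j h : ℝ) := by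
  classical
  unfold rj sg
  have h1 : ∀ x ∈ j.divisorsAntidiagonal,
      (ArithmeticFunction.moebius x.1 : ℝ) * ((x.2 : ℝ) * ic (x.2 ∣ h)) ≤
        (fun y : ℕ × ℕ => (y.2 : ℝ) * ic (y.2 ∣ h)) x := by
    intro x _
    have h2 : (ArithmeticFunction.moebius x.1 : ℝ) ≤ 1 := by
      exact_mod_cast (abs_le.1 (ArithmeticFunction.abs_moebius_le_one (n := x.1))).2
    have h3 : 0 ≤ (x.2 : ℝ) * ic (x.2 ∣ h) := mul_nonneg (Nat.cast_nonneg _) (ic_nonneg _)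
    calc (ArithmeticFunction.moebius x.1 : ℝ) * ((x.2 : ℝ) * ic (x.2 ∣ h))
        ≤ 1 * ((x.2 : ℝ) * ic (x.2 ∣ h)) := mul_le_mul_of_nonneg_right h2 h3
      _ = _ := one_mul _
  refine (Finset.sum_le_sum h1).trans ?_
  rw [Nat.sum_divisorsAntidiagonal' (f := fun _ y => (y : ℝ) * ic (y ∣ h))]
  push_cast
  rcases Nat.eq_zero_or_pos j with rfl | hj
  · simp only [Nat.divisors_zero, Finset.sum_empty]
    exact Finset.sum_nonneg fun i _ => Nat.cast_nonneg _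
  have h4 : (Nat.gcd j h).divisors = j.divisors.filter (fun i => i ∣ h) := by
    ext i
    rw [Nat.mem_divisors, Finset.mem_filter, Nat.mem_divisors, Nat.dvd_gcd_iff]
    constructor
    · rintro ⟨⟨a1, a2⟩, -⟩
      exact ⟨⟨a1, hj.ne'⟩, a2⟩
    · rintro ⟨⟨a1, -⟩, a2⟩
      exact ⟨⟨a1, a2⟩, (Nat.gcd_pos_of_pos_left h hj).ne'⟩
  rw [h4, ← sum_ic_mul]
  refine le_of_eq (Finset.sum_congr rfl fun i _ => mul_comm _ _)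

/-- the main term for a difference `h` -/
theorem main_le (c : ℕ → ℝ) (K : ℕ) {h : ℕ} (hh0 : h ≠ 0) :
    ∑ k₁ ∈ Icc 1 K, ∑ k₂ ∈ Icc 1 K,
      c k₁ * c k₂ * (ic (Nat.gcd k₁ k₂ ∣ h) / (Nat.lcm k₁ k₂ : ℝ)) ≤
      Tc c K 1 ^ 2 + ∑ j ∈ Icc 2 K, (sg j h : ℝ) * Tc c K j ^ 2 := by
  classical
  have h1 : ∀ k₁ ∈ Icc 1 K, ∀ k₂ ∈ Icc 1 K,
      c k₁ * c k₂ * (ic (Nat.gcd k₁ k₂ ∣ h) / (Nat.lcm k₁ k₂ : ℝ)) =
        ∑ j ∈ Icc 1 K, rj h j * ((ic (j ∣ k₁) * c k₁ / k₁) * (ic (j ∣ k₂) * c k₂ / k₂)) := by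
    intro k₁ hk₁ k₂ hk₂
    obtain ⟨a1, a2⟩ := Finset.mem_Icc.1 hk₁
    obtain ⟨b1, b2⟩ := Finset.mem_Icc.1 hk₂
    have hg : 0 < Nat.gcd k₁ k₂ := Nat.gcd_pos_of_pos_left _ a1
    have hl : 0 < Nat.lcm k₁ k₂ := Nat.lcm_pos a1 b1
    have e1 : ∑ j ∈ Icc 1 K, rj h j * ((ic (j ∣ k₁) * c k₁ / k₁) * (ic (j ∣ k₂) * c k₂ / k₂)) =
        (c k₁ / k₁ * (c k₂ / k₂)) * ∑ j ∈ Icc 1 K, ic (j ∣ Nat.gcd k₁ k₂) * rj h j := by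
      rw [Finset.mul_sum]
      refine Finset.sum_congr rfl fun j _ => ?_
      rw [ic_congr (Nat.dvd_gcd_iff (k := j) (m := k₁) (n := k₂)), ic_and]
      ring
    have e2 : ∑ j ∈ Icc 1 K, ic (j ∣ Nat.gcd k₁ k₂) * rj h j =
        ∑ j ∈ (Nat.gcd k₁ k₂).divisors, rj h j := by
      rw [sum_ic_mul]
      congr 1
      ext j
      rw [Finset.mem_filter, Finset.mem_Icc, Nat.mem_divisors]
      constructor
      · rintro ⟨-, h2⟩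
        exact ⟨h2, hg.ne'⟩
      · rintro ⟨h2, -⟩
        exact ⟨⟨Nat.pos_of_dvd_of_pos h2 hg, ((Nat.le_of_dvd hg h2).trans
          (Nat.gcd_le_left k₂ a1)).trans a2⟩, h2⟩
    rw [e1, e2, sum_rj h hg]
    have e3 : ((Nat.gcd k₁ k₂ : ℕ) : ℝ) * (Nat.lcm k₁ k₂ : ℕ) = (k₁ : ℝ) * k₂ := by
      exact_mod_cast Nat.gcd_mul_lcm k₁ k₂
    have hl' : ((Nat.lcm k₁ k₂ : ℕ) : ℝ) ≠ 0 := by exact_mod_cast hl.ne'
    have hk₁' : (k₁ : ℝ) ≠ 0 := by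
      have : k₁ ≠ 0 := by omega
      exact_mod_cast this
    have hk₂' : (k₂ : ℝ) ≠ 0 := by
      have : k₂ ≠ 0 := by omega
      exact_mod_cast this
    have e4 : (1 : ℝ) / (Nat.lcm k₁ k₂ : ℕ) = (Nat.gcd k₁ k₂ : ℕ) / ((k₁ : ℝ) * k₂) := by
      rw [← e3]
      have hg' : ((Nat.gcd k₁ k₂ : ℕ) : ℝ) ≠ 0 := by exact_mod_cast hg.ne'
      field_simp
    calc c k₁ * c k₂ * (ic (Nat.gcd k₁ k₂ ∣ h) / (Nat.lcm k₁ k₂ : ℝ))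
        = c k₁ * c k₂ * ic (Nat.gcd k₁ k₂ ∣ h) * ((1 : ℝ) / (Nat.lcm k₁ k₂ : ℕ)) := by ring
      _ = c k₁ / k₁ * (c k₂ / k₂) * ((Nat.gcd k₁ k₂ : ℕ) * ic (Nat.gcd k₁ k₂ ∣ h)) := by
        rw [e4]
        field_simp
  have h2 : ∑ k₁ ∈ Icc 1 K, ∑ k₂ ∈ Icc 1 K,
      c k₁ * c k₂ * (ic (Nat.gcd k₁ k₂ ∣ h) / (Nat.lcm k₁ k₂ : ℝ)) =
      ∑ j ∈ Icc 1 K, rj h j * Tc c K j ^ 2 := by
    rw [Finset.sum_congr rfl fun k₁ hk₁ => Finset.sum_congr rfl fun k₂ hk₂ => h1 k₁ hk₁ k₂ hk₂]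
    have e5 : ∀ k₁ ∈ Icc 1 K, ∑ k₂ ∈ Icc 1 K, ∑ j ∈ Icc 1 K,
        rj h j * ((ic (j ∣ k₁) * c k₁ / k₁) * (ic (j ∣ k₂) * c k₂ / k₂)) =
        ∑ j ∈ Icc 1 K, ∑ k₂ ∈ Icc 1 K,
        rj h j * ((ic (j ∣ k₁) * c k₁ / k₁) * (ic (j ∣ k₂) * c k₂ / k₂)) :=
      fun k₁ _ => Finset.sum_comm
    rw [Finset.sum_congr rfl e5, Finset.sum_comm]
    refine Finset.sum_congr rfl fun j _ => ?_
    unfold Tc
    rw [sq, Finset.sum_mul_sum, Finset.mul_sum]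
    refine Finset.sum_congr rfl fun k₁ _ => ?_
    rw [Finset.mul_sum]
  rw [h2]
  rcases Nat.eq_zero_or_pos K with rfl | hK
  · simp only [show Icc 1 0 = (∅ : Finset ℕ) from rfl, show Icc 2 0 = (∅ : Finset ℕ) from rfl,
      Finset.sum_empty, add_zero]
    exact sq_nonneg _
  · have e6 : Icc 1 K = insert 1 (Icc 2 K) := by
      ext j
      rw [Finset.mem_insert, Finset.mem_Icc, Finset.mem_Icc]
      omega
    rw [e6, Finset.sum_insert (by simp), rj_one, one_mul]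
    refine add_le_add_right (Finset.sum_le_sum fun j _ => ?_) _
    exact mul_le_mul_of_nonneg_right (rj_le hh0 j) (sq_nonneg _)

/-! ### the divisor sums -/

theorem fc_eq {c : ℕ → ℝ} {K : ℕ} (hc : ∀ k : ℕ, c k ≠ 0 → 1 ≤ k ∧ k ≤ K) {n z : ℕ}
    (hz : z ^ 2 < n) :
    Fc c (n - z ^ 2) = ∑ k ∈ Icc 1 K, c k * ic (n ≡ z ^ 2 [MOD k]) := by
  classical
  have h1 : ∀ k, k ∣ n - z ^ 2 ↔ n ≡ z ^ 2 [MOD k] := by
    intro k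
    constructor
    · intro h
      exact ((Nat.modEq_iff_dvd' hz.le).2 h).symm
    · intro h
      exact (Nat.modEq_iff_dvd' hz.le).1 h.symm
  have h2 : ∑ k ∈ Icc 1 K, c k * ic (n ≡ z ^ 2 [MOD k]) =
      ∑ k ∈ (Icc 1 K).filter (fun k => k ∣ n - z ^ 2), c k := by
    rw [← sum_ic_mul]
    refine Finset.sum_congr rfl fun k _ => ?_
    rw [ic_congr (h1 k), mul_comm]
  rw [h2]
  unfold Fc
  symm
  refine Finset.sum_subset (fun k hk => ?_) fun k hk hk' => ?_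
  · rw [Nat.mem_divisors]
    exact ⟨(Finset.mem_filter.1 hk).2, by omega⟩
  · by_contra hne
    obtain ⟨a1, a2⟩ := hc k hne
    exact hk' (Finset.mem_filter.2 ⟨Finset.mem_Icc.2 ⟨a1, a2⟩, (Nat.mem_divisors.1 hk).1⟩)

/-- the first moment -/
theorem mom1 {c : ℕ → ℝ} {K : ℕ} (hc : ∀ k : ℕ, c k ≠ 0 → 1 ≤ k ∧ k ≤ K ∧ Nat.Coprime k Q)
    (hQ : 0 < Q) (hN : N₀ ≤ N) (u : ℕ) :
    |∑ n ∈ Ico N₀ N, ic (n % Q = a % Q) * ∑ k ∈ Icc 1 K, c k * ic (n ≡ u [MOD k]) -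
      ((N : ℝ) - N₀) / Q * Tc c K 1| ≤ ∑ k ∈ Icc 1 K, |c k| := by
  have h1 : ∑ n ∈ Ico N₀ N, ic (n % Q = a % Q) * ∑ k ∈ Icc 1 K, c k * ic (n ≡ u [MOD k]) -
      ((N : ℝ) - N₀) / Q * Tc c K 1 = ∑ k ∈ Icc 1 K, c k *
        (∑ n ∈ Ico N₀ N, ic (n % Q = a % Q) * ic (n ≡ u [MOD k]) - ((N : ℝ) - N₀) / Q / k) := by
    unfold Tc
    simp only [Finset.mul_sum, mul_sub, Finset.sum_sub_distrib]
    rw [Finset.sum_comm]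
    congr 1
    · refine Finset.sum_congr rfl fun k _ => Finset.sum_congr rfl fun n _ => by ring
    · refine Finset.sum_congr rfl fun k _ => ?_
      rw [ic_pos (one_dvd k)]
      ring
  rw [h1]
  refine (Finset.abs_sum_le_sum_abs _ _).trans (Finset.sum_le_sum fun k _ => ?_)
  rw [abs_mul]
  by_cases h0 : c k = 0
  · rw [h0, abs_zero, zero_mul]
  · obtain ⟨a1, -, a3⟩ := hc k h0
    exact mul_le_of_le_one_right (abs_nonneg _) (two u hQ a1 a3 hN)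

/-- the second moment -/
theorem mom2 {c : ℕ → ℝ} {K : ℕ} (hc : ∀ k : ℕ, c k ≠ 0 → 1 ≤ k ∧ k ≤ K ∧ Nat.Coprime k Q)
    (hQ : 0 < Q) (hN : N₀ ≤ N) (z₁ z₂ : ℕ) :
    |∑ n ∈ Ico N₀ N, ic (n % Q = a % Q) * ((∑ k ∈ Icc 1 K, c k * ic (n ≡ z₁ ^ 2 [MOD k])) *
      ∑ k ∈ Icc 1 K, c k * ic (n ≡ z₂ ^ 2 [MOD k])) -
      ((N : ℝ) - N₀) / Q * ∑ k₁ ∈ Icc 1 K, ∑ k₂ ∈ Icc 1 K,
        c k₁ * c k₂ * (ic (Nat.gcd k₁ k₂ ∣ hh z₁ z₂) / (Nat.lcm k₁ k₂ : ℝ))| ≤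
      (∑ k ∈ Icc 1 K, |c k|) ^ 2 := by
  have h1 : ∑ n ∈ Ico N₀ N, ic (n % Q = a % Q) *
      ((∑ k ∈ Icc 1 K, c k * ic (n ≡ z₁ ^ 2 [MOD k])) *
      ∑ k ∈ Icc 1 K, c k * ic (n ≡ z₂ ^ 2 [MOD k])) -
      ((N : ℝ) - N₀) / Q * ∑ k₁ ∈ Icc 1 K, ∑ k₂ ∈ Icc 1 K,
        c k₁ * c k₂ * (ic (Nat.gcd k₁ k₂ ∣ hh z₁ z₂) / (Nat.lcm k₁ k₂ : ℝ)) =
      ∑ k₁ ∈ Icc 1 K, ∑ k₂ ∈ Icc 1 K, c k₁ * c k₂ *
        (∑ n ∈ Ico N₀ N, ic (n % Q = a % Q) *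
          (ic (n ≡ z₁ ^ 2 [MOD k₁]) * ic (n ≡ z₂ ^ 2 [MOD k₂])) -
        ((N : ℝ) - N₀) / Q * (ic (Nat.gcd k₁ k₂ ∣ hh z₁ z₂) / (Nat.lcm k₁ k₂ : ℝ))) := by
    have e1 : ∑ n ∈ Ico N₀ N, ic (n % Q = a % Q) *
        ((∑ k ∈ Icc 1 K, c k * ic (n ≡ z₁ ^ 2 [MOD k])) *
        ∑ k ∈ Icc 1 K, c k * ic (n ≡ z₂ ^ 2 [MOD k])) =
        ∑ k₁ ∈ Icc 1 K, ∑ k₂ ∈ Icc 1 K, ∑ n ∈ Ico N₀ N, c k₁ * c k₂ *
          (ic (n % Q = a % Q) * (ic (n ≡ z₁ ^ 2 [MOD k₁]) * ic (n ≡ z₂ ^ 2 [MOD k₂]))) := by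
      have e2 : ∀ n ∈ Ico N₀ N, ic (n % Q = a % Q) *
          ((∑ k ∈ Icc 1 K, c k * ic (n ≡ z₁ ^ 2 [MOD k])) *
          ∑ k ∈ Icc 1 K, c k * ic (n ≡ z₂ ^ 2 [MOD k])) =
          ∑ k₁ ∈ Icc 1 K, ∑ k₂ ∈ Icc 1 K, c k₁ * c k₂ *
          (ic (n % Q = a % Q) * (ic (n ≡ z₁ ^ 2 [MOD k₁]) * ic (n ≡ z₂ ^ 2 [MOD k₂]))) := by
        intro n _
        rw [Finset.sum_mul_sum, Finset.mul_sum]
        refine Finset.sum_congr rfl fun k₁ _ => ?_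
        rw [Finset.mul_sum]
        refine Finset.sum_congr rfl fun k₂ _ => ?_
        ring
      rw [Finset.sum_congr rfl e2, Finset.sum_comm]
      exact Finset.sum_congr rfl fun k₁ _ => Finset.sum_comm
    rw [e1]
    simp only [mul_sub, Finset.sum_sub_distrib, Finset.mul_sum]
    congr 1
    refine Finset.sum_congr rfl fun k₁ _ => Finset.sum_congr rfl fun k₂ _ => by ring
  rw [h1, sq (∑ k ∈ Icc 1 K, |c k|), Finset.sum_mul_sum]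
  refine (Finset.abs_sum_le_sum_abs _ _).trans (Finset.sum_le_sum fun k₁ _ => ?_)
  refine (Finset.abs_sum_le_sum_abs _ _).trans (Finset.sum_le_sum fun k₂ _ => ?_)
  rw [abs_mul, abs_mul]
  by_cases h0 : c k₁ = 0
  · rw [h0, abs_zero, zero_mul, zero_mul]
  by_cases h0' : c k₂ = 0
  · rw [h0', abs_zero, mul_zero, zero_mul]
  obtain ⟨a1, -, a3⟩ := hc k₁ h0
  obtain ⟨b1, -, b3⟩ := hc k₂ h0'
  exact mul_le_of_le_one_right (mul_nonneg (abs_nonneg _) (abs_nonneg _))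
    (three z₁ z₂ hQ a1 b1 a3 b3 hN)

/-- expansion of the square -/
theorem expand {ι : Type} (I : Finset ι) (J : Finset ℕ) (w : ι → ℝ) (X : ι → ℕ → ℝ) (B : ℝ) :
    ∑ n ∈ I, w n * (∑ t ∈ J, X n t - B) ^ 2 =
      ∑ t₁ ∈ J, ∑ t₂ ∈ J, ∑ n ∈ I, w n * (X n t₁ * X n t₂) -
      2 * B * ∑ t ∈ J, ∑ n ∈ I, w n * X n t + B ^ 2 * ∑ n ∈ I, w n := by
  have h1 : ∑ t₁ ∈ J, ∑ t₂ ∈ J, ∑ n ∈ I, w n * (X n t₁ * X n t₂) =
      ∑ n ∈ I, w n * (∑ t ∈ J, X n t) ^ 2 := by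
    have e : ∀ n ∈ I, w n * (∑ t ∈ J, X n t) ^ 2 =
        ∑ t₁ ∈ J, ∑ t₂ ∈ J, w n * (X n t₁ * X n t₂) := by
      intro n _
      rw [sq, Finset.sum_mul_sum, Finset.mul_sum]
      exact Finset.sum_congr rfl fun t₁ _ => Finset.mul_sum _ _ _
    have e' : ∑ n ∈ I, ∑ t₁ ∈ J, ∑ t₂ ∈ J, w n * (X n t₁ * X n t₂) =
        ∑ t₁ ∈ J, ∑ t₂ ∈ J, ∑ n ∈ I, w n * (X n t₁ * X n t₂) := by
      calc ∑ n ∈ I, ∑ t₁ ∈ J, ∑ t₂ ∈ J, w n * (X n t₁ * X n t₂) =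
          ∑ t₁ ∈ J, ∑ n ∈ I, ∑ t₂ ∈ J, w n * (X n t₁ * X n t₂) := Finset.sum_comm
        _ = _ := Finset.sum_congr rfl fun t₁ _ => Finset.sum_comm
    rw [Finset.sum_congr rfl e]
    exact e'.symm
  have h2 : ∑ t ∈ J, ∑ n ∈ I, w n * X n t = ∑ n ∈ I, w n * ∑ t ∈ J, X n t := by
    rw [Finset.sum_comm]
    exact Finset.sum_congr rfl fun n _ => (Finset.mul_sum _ _ _).symm
  rw [h1, h2, Finset.mul_sum, Finset.mul_sum, ← Finset.sum_sub_distrib, ← Finset.sum_add_distrib]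
  refine Finset.sum_congr rfl fun n _ => ?_
  ring

end VR

open VR

theorem pf_VR : T_VR := by
  classical
  intro c K Q a b T N₀ N hQ hc hz hN
  set Y : ℝ := ((N : ℝ) - N₀) / Q with hY
  have hY0 : 0 ≤ Y := by
    have : (N₀ : ℝ) ≤ N := by exact_mod_cast hN
    rw [hY]
    exact div_nonneg (by linarith) (Nat.cast_nonneg _)
  set S : ℝ := ∑ k ∈ Icc 1 K, |c k| with hS
  have hS0 : 0 ≤ S := Finset.sum_nonneg fun k _ => abs_nonneg _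
  set X : ℕ → ℕ → ℝ := fun n t => ∑ k ∈ Icc 1 K, c k * ic (n ≡ (b + Q * t) ^ 2 [MOD k]) with hX
  have hFX : ∀ n ∈ Ico N₀ N, ∑ t ∈ Icc 1 T, Fc c (n - (b + Q * t) ^ 2) = ∑ t ∈ Icc 1 T, X n t := by
    intro n hn
    refine Finset.sum_congr rfl fun t ht => ?_
    rw [hX]
    refine fc_eq (fun k hk => ⟨(hc k hk).1, (hc k hk).2.1⟩) ?_
    have h1 : b + Q * t ≤ b + Q * T :=
      Nat.add_le_add_left (Nat.mul_le_mul_left Q (Finset.mem_Icc.1 ht).2) b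
    exact (Nat.pow_le_pow_left h1 2).trans_lt (hz.trans_le (Finset.mem_Ico.1 hn).1)
  have hL : ∑ n ∈ Ico N₀ N, ic (n % Q = a % Q) *
      (∑ t ∈ Icc 1 T, Fc c (n - (b + Q * t) ^ 2) - T * Tc c K 1) ^ 2 =
      ∑ n ∈ Ico N₀ N, ic (n % Q = a % Q) * (∑ t ∈ Icc 1 T, X n t - T * Tc c K 1) ^ 2 :=
    Finset.sum_congr rfl fun n hn => by rw [hFX n hn]
  rw [hL, expand]
  -- the pairs
  set D : ℝ := |∑ k₁ ∈ Icc 1 K, ∑ k₂ ∈ Icc 1 K, c k₁ * c k₂ / (Nat.lcm k₁ k₂ : ℝ)| with hD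
  set R : ℕ → ℕ → ℝ := fun t₁ t₂ =>
    ∑ j ∈ Icc 2 K, (sg j (hh (b + Q * t₁) (b + Q * t₂)) : ℝ) * Tc c K j ^ 2 with hR
  have hpair : ∀ t₁ ∈ Icc 1 T, ∀ t₂ ∈ Icc 1 T,
      ∑ n ∈ Ico N₀ N, ic (n % Q = a % Q) * (X n t₁ * X n t₂) ≤
      Y * (ic (t₁ ≠ t₂) * (Tc c K 1 ^ 2 + R t₁ t₂) + ic (t₁ = t₂) * D) + S ^ 2 := by
    intro t₁ _ t₂ _
    have h1 := mom2 (a := a) hc hQ hN (b + Q * t₁) (b + Q * t₂)
    have h2 := (abs_le.1 h1).2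
    have h3 : ∑ k₁ ∈ Icc 1 K, ∑ k₂ ∈ Icc 1 K, c k₁ * c k₂ *
        (ic (Nat.gcd k₁ k₂ ∣ hh (b + Q * t₁) (b + Q * t₂)) / (Nat.lcm k₁ k₂ : ℝ)) ≤
        ic (t₁ ≠ t₂) * (Tc c K 1 ^ 2 + R t₁ t₂) + ic (t₁ = t₂) * D := by
      by_cases ht : t₁ = t₂
      · rw [ic_neg (not_not.2 ht), zero_mul, zero_add, ic_pos ht, one_mul]
        refine le_trans (le_of_eq ?_) (le_abs_self _)
        refine Finset.sum_congr rfl fun k₁ _ => Finset.sum_congr rfl fun k₂ _ => ?_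
        have e : hh (b + Q * t₁) (b + Q * t₂) = 0 := by
          rw [ht]
          unfold hh
          simp
        rw [e, ic_pos (dvd_zero _), mul_one_div]
      · rw [ic_pos ht, one_mul, ic_neg ht, zero_mul, add_zero]
        refine main_le c K ?_
        intro h0
        unfold hh at h0
        rw [Int.natAbs_eq_zero, sub_eq_zero] at h0
        have h4 : (b + Q * t₁) ^ 2 = (b + Q * t₂) ^ 2 := by exact_mod_cast h0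
        have h5 : b + Q * t₁ = b + Q * t₂ := Nat.pow_left_injective (n := 2) (by norm_num) h4
        exact ht (Nat.eq_of_mul_eq_mul_left hQ (by omega))
    have h4 := mul_le_mul_of_nonneg_left h3 hY0
    linarith
  have hA : ∑ t₁ ∈ Icc 1 T, ∑ t₂ ∈ Icc 1 T,
      ∑ n ∈ Ico N₀ N, ic (n % Q = a % Q) * (X n t₁ * X n t₂) ≤
      Y * (((T : ℝ) ^ 2 - T) * Tc c K 1 ^ 2 + ∑ t₁ ∈ Icc 1 T, ∑ t₂ ∈ Icc 1 T, ic (t₁ ≠ t₂) *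
        R t₁ t₂ + T * D) + (T : ℝ) ^ 2 * S ^ 2 := by
    refine (Finset.sum_le_sum fun t₁ h1 => Finset.sum_le_sum fun t₂ h2 =>
      hpair t₁ h1 t₂ h2).trans (le_of_eq ?_)
    have e1 : ∑ t₁ ∈ Icc 1 T, ∑ t₂ ∈ Icc 1 T, ic (t₁ = t₂) = (T : ℝ) := by
      have e2 : ∀ t₁ ∈ Icc 1 T, ∑ t₂ ∈ Icc 1 T, ic (t₁ = t₂) = 1 := by
        intro t₁ h1
        rw [Finset.sum_eq_single t₁]
        · exact ic_pos rfl
        · intro t₂ _ h2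
          exact ic_neg (Ne.symm h2)
        · intro h2
          exact absurd h1 h2
      rw [Finset.sum_congr rfl e2]
      simp
    have e3 : ∑ t₁ ∈ Icc 1 T, ∑ t₂ ∈ Icc 1 T, (1 : ℝ) = (T : ℝ) ^ 2 := by
      simp [sq]
    have e4 : ∑ t₁ ∈ Icc 1 T, ∑ t₂ ∈ Icc 1 T, ic (t₁ ≠ t₂) = (T : ℝ) ^ 2 - T := by
      have e5 : ∀ t₁ t₂ : ℕ, ic (t₁ ≠ t₂) = 1 - ic (t₁ = t₂) := fun t₁ t₂ => ic_not _
      simp only [e5, Finset.sum_sub_distrib]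
      rw [e3, e1]
    have e6 : ∀ t₁ t₂ : ℕ, Y * (ic (t₁ ≠ t₂) * (Tc c K 1 ^ 2 + R t₁ t₂) + ic (t₁ = t₂) * D) + S ^ 2
        = Y * Tc c K 1 ^ 2 * ic (t₁ ≠ t₂) + Y * (ic (t₁ ≠ t₂) * R t₁ t₂) + Y * D * ic (t₁ = t₂) +
          S ^ 2 * 1 := by
      intro t₁ t₂
      ring
    simp only [e6, Finset.sum_add_distrib, ← Finset.mul_sum]
    rw [e1, e3, e4]
    ring
  -- the linear term
  have hB : ∀ t ∈ Icc 1 T, |∑ n ∈ Ico N₀ N, ic (n % Q = a % Q) * X n t - Y * Tc c K 1| ≤ S :=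
    fun t _ => mom1 hc hQ hN _
  have hB' : |∑ t ∈ Icc 1 T, ∑ n ∈ Ico N₀ N, ic (n % Q = a % Q) * X n t - T * (Y * Tc c K 1)| ≤
      T * S := by
    have e1 : ∑ t ∈ Icc 1 T, ∑ n ∈ Ico N₀ N, ic (n % Q = a % Q) * X n t - T * (Y * Tc c K 1) =
        ∑ t ∈ Icc 1 T, (∑ n ∈ Ico N₀ N, ic (n % Q = a % Q) * X n t - Y * Tc c K 1) := by
      rw [Finset.sum_sub_distrib]
      simp
    rw [e1]
    refine (Finset.abs_sum_le_sum_abs _ _).trans ((Finset.sum_le_sum hB).trans (le_of_eq ?_))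
    simp
  -- the number of terms
  have hC : ∑ n ∈ Ico N₀ N, ic (n % Q = a % Q) ≤ Y + 1 := by
    have h1 := (abs_le.1 (count N₀ N Q a hQ hN)).2
    have h2 : ∑ n ∈ Ico N₀ N, ic (n ≡ a [MOD Q]) = ∑ n ∈ Ico N₀ N, ic (n % Q = a % Q) := rfl
    rw [h2] at h1
    linarith
  set P : ℝ := ∑ t ∈ Icc 1 T, ∑ n ∈ Ico N₀ N, ic (n % Q = a % Q) * X n t with hP
  set U : ℝ := ∑ t₁ ∈ Icc 1 T, ∑ t₂ ∈ Icc 1 T, ic (t₁ ≠ t₂) * R t₁ t₂ with hU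
  have hT0 : (0 : ℝ) ≤ T := Nat.cast_nonneg T
  have h2 : -(2 * (T * Tc c K 1) * P) ≤ -2 * (T : ℝ) ^ 2 * Tc c K 1 ^ 2 * Y +
      2 * (T : ℝ) ^ 2 * |Tc c K 1| * S := by
    have e1 : -(2 * (T * Tc c K 1) * P) = -2 * (T : ℝ) ^ 2 * Tc c K 1 ^ 2 * Y +
        2 * T * (-(Tc c K 1 * (P - T * (Y * Tc c K 1)))) := by ring
    have e2 : -(Tc c K 1 * (P - T * (Y * Tc c K 1))) ≤ |Tc c K 1| * (T * S) := by
      refine (neg_le_abs _).trans ?_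
      rw [abs_mul]
      exact mul_le_mul_of_nonneg_left hB' (abs_nonneg _)
    have e3 := mul_le_mul_of_nonneg_left e2 (mul_nonneg (zero_le_two (α := ℝ)) hT0)
    rw [e1]
    linarith
  have h3 : (T * Tc c K 1) ^ 2 * ∑ n ∈ Ico N₀ N, ic (n % Q = a % Q) ≤
      (T * Tc c K 1) ^ 2 * (Y + 1) := mul_le_mul_of_nonneg_left hC (sq_nonneg _)
  have h4 : 0 ≤ Y * (T * Tc c K 1 ^ 2) := mul_nonneg hY0 (mul_nonneg hT0 (sq_nonneg _))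
  have h5 : (T : ℝ) ^ 2 * (S + |Tc c K 1|) ^ 2 = (T : ℝ) ^ 2 * S ^ 2 +
      2 * (T : ℝ) ^ 2 * |Tc c K 1| * S + (T : ℝ) ^ 2 * Tc c K 1 ^ 2 := by
    rw [← sq_abs (Tc c K 1)]
    ring
  rw [h5]
  nlinarith [hA, h2, h3, h4]

end Pool.Agent.H71.MS
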